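import Pool.Agent.Helper61.NW.Goals

/-!
# NW-DEG: a connected set with many neighbours in a large connected graph of minimal degree three
-/

set_option autoImplicit false

namespace Pool.Agent.Helper43.NW

open Pool.Agent.Helper52.Wq2 Pool.Agent.Helper61.NW

universe u

theorem reach {V : Type u} {L : SimpleGraph V} (hL : Conn L Set.univ) (a b : V) :
    L.Reachable a b := by
  have := hL.2 {x | L.Reachable a x} (Set.subset_univ _) ⟨a, SimpleGraph.Reachable.refl a⟩ (by
    intro x hx y _ hxy
    exact hx.trans hxy.reachable)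
  exact this (Set.mem_univ b)

theorem dist_adj {V : Type u} {L : SimpleGraph V} (hc : L.Connected) (a : V) {x y : V}
    (h : L.Adj x y) : L.dist a y ≤ L.dist a x + 1 := by
  have h1 := hc.dist_triangle (u := a) (v := x) (w := y)
  have h2 : L.dist x y = 1 := SimpleGraph.dist_eq_one_iff_adj.2 h
  omega

/-- Far points exist. -/
theorem far {V : Type u} [Finite V] {L : SimpleGraph V} (hc : L.Connected) (q : ℕ)
    (hdeg : ∀ v, (L.neighborSet v).ncard < q) (hq : (q + 3) ^ (4 * q + 6) ≤ Nat.card V) (a : V) :
    ∃ b, 3 * q < L.dist a b := by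
  classical
  have := Fintype.ofFinite V
  by_contra hcon
  push Not at hcon
  let N : V → Finset V := fun x => Finset.univ.filter (fun y => L.Adj x y)
  have hN : ∀ x, (N x).card < q := by
    intro x
    have h1 : L.neighborSet x = ((N x : Finset V) : Set V) := by
      ext y
      simp [N]
    have h2 := hdeg x
    rw [h1, Set.ncard_coe_finset] at h2
    exact h2
  let W : ℕ → Finset V := fun r => Nat.rec {a} (fun _ s => s.biUnion (fun x => insert x (N x))) r
  have hW0 : W 0 = {a} := rfl
  have hWs : ∀ r, W (r + 1) = (W r).biUnion (fun x => insert x (N x)) := fun r => rfl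
  have hcard : ∀ r, (W r).card ≤ q ^ r := by
    intro r
    induction r with
    | zero => simp [hW0]
    | succ r ih =>
      rw [hWs, pow_succ]
      refine le_trans (Finset.card_biUnion_le_card_mul _ _ q ?_) (Nat.mul_le_mul_right q ih)
      intro x _
      have := Finset.card_insert_le x (N x)
      have := hN x
      omega
  have hmono : ∀ r x, x ∈ W r → x ∈ W (r + 1) := by
    intro r x hx
    rw [hWs, Finset.mem_biUnion]
    exact ⟨x, hx, Finset.mem_insert_self _ _⟩
  have hmono' : ∀ r s x, r ≤ s → x ∈ W r → x ∈ W s := by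
    intro r s x hrs hx
    induction s, hrs using Nat.le_induction with
    | base => exact hx
    | succ s _ ih => exact hmono s x ih
  have hwalk : ∀ (y c : V) (p : L.Walk y c), c = a → y ∈ W p.length := by
    intro y c p
    induction p with
    | nil =>
      rintro rfl
      simp [hW0]
    | @cons y z c h p ih =>
      intro hc'
      have := ih hc'
      rw [SimpleGraph.Walk.length_cons, hWs, Finset.mem_biUnion]
      refine ⟨z, this, ?_⟩
      rw [Finset.mem_insert]
      right
      simp only [N, Finset.mem_filter, Finset.mem_univ, true_and]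
      exact h.symm
  have hall : ∀ y, y ∈ W (3 * q) := by
    intro y
    obtain ⟨p, hp⟩ := hc.exists_walk_length_eq_dist y a
    refine hmono' p.length _ y ?_ (hwalk y a p rfl)
    rw [hp, SimpleGraph.dist_comm]
    exact hcon y
  have h1 : Nat.card V ≤ q ^ (3 * q) := by
    rw [Nat.card_eq_fintype_card, ← Finset.card_univ]
    refine le_trans (Finset.card_le_card ?_) (hcard (3 * q))
    intro y _
    exact hall y
  have h2 : q ^ (3 * q) ≤ (q + 3) ^ (3 * q) := Nat.pow_le_pow_left (by omega) _
  have h3 : (q + 3) ^ (3 * q) < (q + 3) ^ (4 * q + 6) :=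
    Nat.pow_lt_pow_right (by omega) (by omega)
  omega

theorem deg : DegStmt.{u} := by
  intro V _ L hL hdeg q hq
  classical
  by_cases hA : ∃ v, q ≤ (L.neighborSet v).ncard
  · obtain ⟨v, hv⟩ := hA
    rw [← Nat.card_coe_set_eq] at hv
    refine ⟨{v}, fun i => ((Finite.equivFin (L.neighborSet v)).symm (Fin.castLE hv i)).1,
      conn_singleton L v, ?_, ?_, ?_⟩
    · intro i j hij
      have h1 := (Finite.equivFin (L.neighborSet v)).symm.injective (Subtype.ext hij)
      exact Fin.castLE_injective hv h1
    · intro i hi
      have h1 := ((Finite.equivFin (L.neighborSet v)).symm (Fin.castLE hv i)).2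
      have hi' : ((Finite.equivFin (L.neighborSet v)).symm (Fin.castLE hv i)).1 = v := hi
      rw [hi'] at h1
      exact L.irrefl h1
    · intro i
      exact ⟨v, rfl, ((Finite.equivFin (L.neighborSet v)).symm (Fin.castLE hv i)).2⟩
  push Not at hA
  obtain ⟨a, -⟩ := hL.1
  have hc : L.Connected := by
    rw [SimpleGraph.connected_iff]
    exact ⟨fun x y => reach hL x y, ⟨a⟩⟩
  obtain ⟨b, hb⟩ := far hc q hA hq a
  obtain ⟨p, hp⟩ := hc.exists_walk_length_eq_dist a b
  set d := p.length with hd
  let v : ℕ → V := p.getVert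
  have hv0 : v 0 = a := p.getVert_zero
  have hvd : v d = b := p.getVert_length
  have hadj : ∀ i, i < d → L.Adj (v i) (v (i + 1)) := fun i hi => p.adj_getVert_succ hi
  have hstep : ∀ i k, i + k ≤ d → L.dist a (v (i + k)) ≤ L.dist a (v i) + k := by
    intro i k
    induction k with
    | zero => intro _; simp
    | succ k ih =>
      intro hk
      have h1 := ih (by omega)
      have h2 := dist_adj hc a (hadj (i + k) (by omega))
      rw [← add_assoc]
      omega
  have hdist : ∀ i, i ≤ d → L.dist a (v i) = i := by
    intro i hi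
    have h1 := hstep 0 i (by omega)
    rw [zero_add, hv0, SimpleGraph.dist_self] at h1
    obtain ⟨k, hk⟩ := Nat.exists_eq_add_of_le hi
    have h2 := hstep i k (by omega)
    rw [← hk, hvd, ← hp] at h2
    omega
  let C : Set V := {x | ∃ i, i ≤ d ∧ x ∈ ({v i} : Set V)}
  have hC : Conn L C := conn_chain (fun i => ({v i} : Set V)) d (fun i _ => conn_singleton L _)
    (fun i hi => ⟨v i, rfl, v (i + 1), rfl, hadj i hi⟩)
  have hout : ∀ j, j ≤ d → ∃ x, L.Adj (v j) x ∧ x ∉ C := by
    intro j hj
    by_contra hcon
    push Not at hcon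
    have hsub : L.neighborSet (v j) ⊆ {v (j - 1), v (j + 1)} := by
      intro x hx
      have hx' : L.Adj (v j) x := hx
      obtain ⟨i, hi, hxi⟩ := hcon x hx'
      rw [Set.mem_singleton_iff] at hxi
      subst hxi
      have h1 := dist_adj hc a hx'
      have h2 := dist_adj hc a hx'.symm
      rw [hdist i hi, hdist j hj] at h1 h2
      have h3 : i ≠ j := by
        rintro rfl
        exact L.irrefl hx'
      rcases Nat.lt_or_gt_of_ne h3 with h4 | h4
      · left
        have : i = j - 1 := by omega
        rw [this]
      · right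
        have : i = j + 1 := by omega
        rw [this]
        rfl
    have h1 := Set.ncard_le_ncard hsub (Set.toFinite _)
    have h2 := Set.ncard_insert_le (v (j - 1)) ({v (j + 1)} : Set V)
    rw [Set.ncard_singleton] at h2
    have h3 := hdeg (v j)
    omega
  have hne : Nonempty V := ⟨a⟩
  choose! B hB using hout
  refine ⟨C, fun i => B (3 * (i : ℕ)), hC, ?_, ?_, ?_⟩
  · intro i j hij
    simp only at hij
    have hi := i.2
    have hj := j.2
    have h1 := (hB (3 * (i : ℕ)) (by omega)).1
    have h2 := (hB (3 * (j : ℕ)) (by omega)).1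
    rw [← hij] at h2
    have e1 := dist_adj hc a h1
    have e2 := dist_adj hc a h1.symm
    have e3 := dist_adj hc a h2
    have e4 := dist_adj hc a h2.symm
    rw [hdist (3 * (i : ℕ)) (by omega)] at e1 e2
    rw [hdist (3 * (j : ℕ)) (by omega)] at e3 e4
    apply Fin.ext
    omega
  · intro i
    have hi := i.2
    exact (hB (3 * (i : ℕ)) (by omega)).2
  · intro i
    have hi := i.2
    exact ⟨v (3 * (i : ℕ)), ⟨3 * (i : ℕ), by omega, rfl⟩, (hB (3 * (i : ℕ)) (by omega)).1⟩

end Pool.Agent.Helper43.NW
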